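import Pool.Agent.Helper76.SGA.Goals
import Pool.Agent.Helper40.Ru.HasseBasic

/-!
Packet DDV of project SG (MP_a41896_nt): the partial derivative of a polynomial.
-/

set_option autoImplicit false

open MvPolynomial

namespace Pool.Agent.Helper90.SGA

open Pool.Agent.Helper92.Ru Pool.Agent.Helper42.SG Pool.Agent.Helper76.SGA

variable {k : Type} [Field k] {σ : Type}

lemma le_degreeOf (f : MvPolynomial σ k) (h : σ) (e : σ →₀ ℕ) (he : coeff e f ≠ 0) :
    e h ≤ degreeOf h f := by
  rw [degreeOf_eq_sup]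
  exact Finset.le_sup (f := fun m : σ →₀ ℕ => m h) (mem_support_iff.2 he)

lemma exists_max (f : MvPolynomial σ k) (h : σ) (hf : f ≠ 0) :
    ∃ e, coeff e f ≠ 0 ∧ e h = degreeOf h f := by
  obtain ⟨e, he, h1⟩ := Finset.exists_mem_eq_sup f.support (support_nonempty.2 hf)
    (fun m : σ →₀ ℕ => m h)
  refine ⟨e, mem_support_iff.1 he, ?_⟩
  rw [degreeOf_eq_sup]
  exact h1.symm

lemma coeff_up (f : MvPolynomial σ k) (h : σ) (e : σ →₀ ℕ) (he : coeff e (pderiv h f) ≠ 0) :
    coeff (e + Finsupp.single h 1) f ≠ 0 := by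
  intro h0
  apply he
  rw [coeff_pderiv, h0, zero_mul]

theorem ddv : DDV := by
  intro k _ _ M f h hf hdeg
  have hne : pderiv h f ≠ 0 := by
    obtain ⟨e, he, hmax⟩ := exists_max f h hf
    have hle : Finsupp.single h 1 ≤ e := by
      rw [Finsupp.single_le_iff]
      omega
    have hsub : e - Finsupp.single h 1 + Finsupp.single h 1 = e := tsub_add_cancel_of_le hle
    intro h0
    have h1 := coeff_pderiv (i := h) f (e - Finsupp.single h 1)
    rw [h0, coeff_zero, hsub] at h1
    have h2 : (((e - Finsupp.single h 1 : Fin M →₀ ℕ) h : ℕ) : k) + 1 ≠ 0 := by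
      exact Nat.cast_add_one_ne_zero _
    exact (mul_ne_zero he h2) h1.symm
  have hlt : degreeOf h (pderiv h f) < degreeOf h f := by
    rw [degreeOf_lt_iff (by omega)]
    intro m hm
    have h1 := le_degreeOf f h _ (coeff_up f h m (mem_support_iff.1 hm))
    rw [Finsupp.add_apply, Finsupp.single_eq_same] at h1
    omega
  refine ⟨hne, ?_, ?_, ?_, ?_⟩
  · rintro ⟨q, hq⟩
    have hq0 : q ≠ 0 := by
      rintro rfl
      exact hne (by rw [hq, mul_zero])
    have h1 := degreeOf_mul_eq (n := h) hf hq0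
    rw [← hq] at h1
    omega
  · intro h'
    rw [degreeOf_eq_sup h' (pderiv h f)]
    apply Finset.sup_le
    intro m hm
    have h1 := le_degreeOf f h' _ (coeff_up f h m (mem_support_iff.1 hm))
    rw [Finsupp.add_apply] at h1
    omega
  · intro e
    by_cases h0 : coeff (e + Finsupp.single h 1) f = 0
    · refine ⟨e, 0, Nat.zero_le _, ?_⟩
      rw [coeff_pderiv, h0, zero_mul, Nat.cast_zero, zero_mul]
    · refine ⟨e + Finsupp.single h 1, e h + 1, ?_, ?_⟩
      · have h1 := le_degreeOf f h _ h0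
        rw [Finsupp.add_apply, Finsupp.single_eq_same] at h1
        exact h1
      · rw [coeff_pderiv, mul_comm, Nat.cast_add, Nat.cast_one]
  · intro r ξ τ hI e he
    rw [Pool.Agent.Helper40.Ru.shiftP_pderiv] at he
    have h1 := hI _ (mem_support_iff.2 (coeff_up (shiftP ξ f) h e (mem_support_iff.1 he)))
    have h2 : ∑ x, (((e + Finsupp.single h 1 : Fin M →₀ ℕ) x : ℕ) : ℝ) / (r x : ℝ) =
        ∑ x, ((e x : ℕ) : ℝ) / (r x : ℝ) + 1 / (r h : ℝ) := by
      have h3 : ∀ x ∈ (Finset.univ : Finset (Fin M)),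
          (((e + Finsupp.single h 1 : Fin M →₀ ℕ) x : ℕ) : ℝ) / (r x : ℝ) =
          ((e x : ℕ) : ℝ) / (r x : ℝ) + (if x = h then 1 / (r h : ℝ) else 0) := by
        intro x _
        rw [Finsupp.add_apply]
        by_cases hx : x = h
        · subst hx
          rw [Finsupp.single_eq_same, if_pos rfl, Nat.cast_add, Nat.cast_one, add_div]
        · rw [Finsupp.single_eq_of_ne hx, if_neg hx, add_zero, add_zero]
      rw [Finset.sum_congr rfl h3, Finset.sum_add_distrib, Finset.sum_ite_eq' Finset.univ h,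
        if_pos (Finset.mem_univ h)]
    rw [h2] at h1
    linarith

end Pool.Agent.Helper90.SGA
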